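import Pool.Agent.Y48.KF.Cov
import Pool.Agent.Y714.KE.BasB

set_option autoImplicit false
set_option linter.unusedSectionVars false

/-! Etale algebras: content failure and strong failure of reducedness at large primes (adapted from
the files of helper48 for one field). -/

namespace Pool.Agent.Y664.KE

open Pool.Agent.Y714.KE
open Pool.Agent.Y714.KF (FI sp ct nm pm ext br gl sp_ne sp_le sp_mul nm_pos exists_ideal
  sp_natCast_le_one)
open Pool.Agent.Y48.KF (cover bUc)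
open NumberField FractionalIdeal Module Finset
open scoped nonZeroDivisors

variable {s : Type} [Fintype s] [DecidableEq s] {K : s → Type} [∀ i, Field (K i)]
  [∀ i, NumberField (K i)]

/-- the logarithmic factor -/
noncomputable def lg (r : ℕ) (x : ℝ) : ℝ := (1 + Real.log (1 + x)) ^ (r - 1)

theorem lg_mono {r : ℕ} {x y : ℝ} (hx : 0 ≤ x) (hxy : x ≤ y) : lg r x ≤ lg r y := by
  unfold lg
  have h1 : 0 ≤ Real.log (1 + x) := Real.log_nonneg (by linarith)
  have h2 : Real.log (1 + x) ≤ Real.log (1 + y) := Real.log_le_log (by linarith) (by linarith)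
  exact pow_le_pow_left₀ (by linarith) (by linarith) _

theorem lg_nonneg {r : ℕ} {x : ℝ} (hx : 0 ≤ x) : 0 ≤ lg r x := by
  unfold lg
  have h1 : 0 ≤ Real.log (1 + x) := Real.log_nonneg (by linarith)
  positivity

/-- the crude bound, in a family of ideals of norm at least `D * nA I` -/
theorem cr_mulA {κ : Ux K → ℝ} {C : ℝ} (hC : 0 < C)
    (h : ∀ (I : FU K) (t : ℝ), 0 < t → (SA κ (cf I) t).Finite ∧
      ((SA κ (cf I) t).ncard : ℝ) ≤ C * (t / ((nA (cf I) : ℚ) : ℝ) ^ 2) *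
        lg (Fintype.card s) (t / ((nA (cf I) : ℚ) : ℝ) ^ 2))
    {J I : FA K} (hJ : ∀ i, J i ≠ 0) (hI : ∀ i, I i ≠ 0) {t D x : ℝ} (ht : 0 < t) (hD : 0 < D)
    (hDJ : D * ((nA I : ℚ) : ℝ) ≤ ((nA J : ℚ) : ℝ))
    (hx : t / (D ^ 2 * ((nA I : ℚ) : ℝ) ^ 2) ≤ x) :
    (SA κ J t).Finite ∧ ((SA κ J t).ncard : ℝ) ≤
      C * (t / (D ^ 2 * ((nA I : ℚ) : ℝ) ^ 2)) * lg (Fintype.card s) x := by
  obtain ⟨h1, h2⟩ := h (fun i => Units.mk0 (J i) (hJ i)) t ht
  have hcf : cf (fun i => Units.mk0 (J i) (hJ i)) = J := rfl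
  rw [hcf] at h1 h2
  refine ⟨h1, h2.trans ?_⟩
  have h3 : (0 : ℝ) < ((nA I : ℚ) : ℝ) := by exact_mod_cast nA_pos hI
  have h4 : (0 : ℝ) < ((nA J : ℚ) : ℝ) := by exact_mod_cast nA_pos hJ
  have h5 : t / ((nA J : ℚ) : ℝ) ^ 2 ≤ t / (D ^ 2 * ((nA I : ℚ) : ℝ) ^ 2) := by
    rw [← mul_pow]
    gcongr
  have h6 : lg (Fintype.card s) (t / ((nA J : ℚ) : ℝ) ^ 2) ≤ lg (Fintype.card s) x :=
    lg_mono (by positivity) (h5.trans hx)
  have h7 : 0 ≤ lg (Fintype.card s) (t / ((nA J : ℚ) : ℝ) ^ 2) := lg_nonneg (by positivity)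
  gcongr

theorem nm_prime {F : Type} [Field F] [NumberField F] {q : Ideal (𝓞 F)} (hq : q.IsPrime)
    (hq0 : (q : FI F) ≠ 0) : 1 < nm (q : FI F) := by
  have h1 := Pool.Agent.Y714.KF.nm_ge_one (coeIdeal_le_one (I := q)) hq0
  refine lt_of_le_of_ne h1 fun h2 => ?_
  rw [nm, coeIdeal_absNorm] at h2
  have h3 : Ideal.absNorm q = 1 := by exact_mod_cast h2.symm
  exact hq.ne_top (Ideal.absNorm_eq_one_iff.1 h3)

theorem mul_le_self {F : Type} [Field F] [NumberField F] {a I : FI F} (ha : a ≤ 1) :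
    a * I ≤ I := by
  calc a * I ≤ 1 * I := by gcongr
    _ = I := one_mul _

variable (K)

theorem t_cf (h1 : S_CR K) (h2 : S_DIV K) : S_CF K := by
  intro hodd hn κ
  obtain ⟨C, hC, hCR⟩ := h1 hodd hn κ
  refine ⟨2 * (2 ^ dg K * C), by positivity, fun I t X ht hX => ?_⟩
  have hI0 : ∀ i, cf I i ≠ 0 := fun i => (I i).ne_zero
  obtain ⟨N, hN⟩ : ∃ N : ℝ, N = ((nA (cf I) : ℚ) : ℝ) := ⟨_, rfl⟩
  have hN0 : 0 < N := by rw [hN]; exact_mod_cast nA_pos hI0
  obtain ⟨G, hG⟩ : ∃ G : ℝ, G = lg (Fintype.card s) (t / N ^ 2) := ⟨_, rfl⟩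
  have hG0 : 0 ≤ G := by rw [hG]; exact lg_nonneg (by positivity)
  have key := cover {M ∈ SA κ (cf I) t | ∃ p : ℕ, p.Prime ∧ X < p ∧ Cf p (cf I) M}
    ((hCR I t ht).1.subset fun M hM => hM.1)
    (fun p => {M | M ∈ SA κ (cf I) t ∧ p.Prime ∧ Cf p (cf I) M})
    (2 ^ dg K * C * (t / N ^ 2) * G) X (by positivity) (by linarith)
    ?_ ?_
  · rw [← hN]
    refine key.trans (le_of_eq ?_)
    rw [hG]
    unfold lg
    ring
  · intro p hXp
    have hp0 : (0 : ℝ) < (p : ℝ) := by linarith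
    by_cases hp : p.Prime
    swap
    · have : {M | M ∈ SA κ (cf I) t ∧ p.Prime ∧ Cf p (cf I) M} = ∅ := by
        ext M
        simp [hp]
      rw [this]
      refine ⟨Set.finite_empty, ?_⟩
      rw [Set.ncard_empty]
      push_cast
      positivity
    have hp1 : (1 : ℝ) ≤ p := by exact_mod_cast hp.one_lt.le
    obtain ⟨d1, d2⟩ := h2 p hp I
    have hp0' : ∀ i, (p : K i) ≠ 0 := fun i => by exact_mod_cast hp.ne_zero
    have hT : {J : FA K | (∀ i, sp (p : K i) * (I i : FI (K i)) ≤ J i ∧ J i ≤ I i) ∧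
        (p : ℚ) * nA (cf I) ≤ nA J} ⊆
        {J : FA K | ∀ i, sp (p : K i) * (I i : FI (K i)) ≤ J i ∧ J i ≤ I i} := fun J hJ => hJ.1
    have key2 := bUc {M | M ∈ SA κ (cf I) t ∧ p.Prime ∧ Cf p (cf I) M}
      {J : FA K | (∀ i, sp (p : K i) * (I i : FI (K i)) ≤ J i ∧ J i ≤ I i) ∧
        (p : ℚ) * nA (cf I) ≤ nA J} (d1.subset hT) (2 ^ dg K)
      ((Set.ncard_le_ncard hT d1).trans d2) (fun J => SA κ J t)
      (C * (t / ((p : ℝ) ^ 2 * N ^ 2)) * G) (by positivity) ?_ ?_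
    · refine ⟨key2.1, key2.2.trans (le_of_eq ?_)⟩
      push_cast
      field_simp
    · rintro J ⟨hJ1, hJ2⟩
      have hJ0 : ∀ i, J i ≠ 0 := by
        intro i h0
        have h3 := (hJ1 i).1
        rw [h0] at h3
        have h4 : sp (p : K i) * (I i : FI (K i)) = 0 := le_antisymm h3 (zero_le _)
        exact mul_ne_zero (sp_ne (hp0' i)) (I i).ne_zero h4
      rw [hN, hG]
      refine cr_mulA hC hCR hJ0 hI0 ht hp0 (by exact_mod_cast hJ2) ?_
      rw [← hN]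
      have h5 : (1 : ℝ) ≤ (p : ℝ) ^ 2 := one_le_pow₀ hp1
      have h6 : 0 < N ^ 2 := by positivity
      gcongr
      nlinarith
    · rintro M ⟨⟨P, rfl, hPI, hPN, hPZ, hPt⟩, _, i, q, hq1, hq2, hq3⟩
      obtain ⟨J, hJ⟩ : ∃ J : FA K, J = Function.update (cf I) i ((q : FI (K i)) * cf I i) :=
        ⟨_, rfl⟩
      have hJi : J i = (q : FI (K i)) * cf I i := by rw [hJ, Function.update_self]
      have hJk : ∀ k, k ≠ i → J k = cf I k := fun k hk => by rw [hJ, Function.update_of_ne hk]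
      have hpq : sp (p : K i) ≤ (q : FI (K i)) := by
        rw [sp_le]
        exact (mem_coeIdeal (P := K i) (S := (𝓞 (K i))⁰) (I := q) (x := (p : K i))).2
          ⟨(p : 𝓞 (K i)), hq2, by simp⟩
      have hq0 : (q : FI (K i)) ≠ 0 := by
        intro h0
        rw [h0] at hpq
        exact sp_ne (hp0' i) (le_antisymm hpq (zero_le _))
      have hJ1 : ∀ k, sp (p : K k) * (I k : FI (K k)) ≤ J k ∧ J k ≤ I k := by
        intro k
        by_cases hk : k = i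
        · subst hk
          rw [hJi]
          refine ⟨?_, mul_le_self coeIdeal_le_one⟩
          show sp (p : K k) * cf I k ≤ _
          gcongr
        · rw [hJk k hk]
          exact ⟨mul_le_self (sp_natCast_le_one p), le_rfl⟩
      have hJn : nA J = nm (q : FI (K i)) * nA (cf I) := by
        unfold nA
        rw [← Finset.mul_prod_erase _ _ (Finset.mem_univ i),
          ← Finset.mul_prod_erase univ (fun k => nm (cf I k)) (Finset.mem_univ i), hJi]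
        have h3 : nm ((q : FI (K i)) * cf I i) = nm (q : FI (K i)) * nm (cf I i) := map_mul _ _ _
        rw [h3, mul_assoc]
        congr 2
        refine Finset.prod_congr rfl fun k hk => ?_
        rw [hJk k (Finset.ne_of_mem_erase hk)]
      refine ⟨J, ⟨hJ1, ?_⟩, P, rfl, ?_, hPN, hPZ, hPt⟩
      · obtain ⟨m, _, hm⟩ := exists_powA hp (I := cf I) (J := J) hI0 (fun k => (hJ1 k).1)
          (fun k => (hJ1 k).2)
        have hn0 : 0 < nA (cf I) := nA_pos hI0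
        have hq1' := nm_prime hq1 hq0
        have hm0 : m ≠ 0 := by
          rintro rfl
          rw [pow_zero, one_mul, hJn] at hm
          have h4 : 1 * nA (cf I) < nm (q : FI (K i)) * nA (cf I) := by gcongr
          rw [hm, one_mul] at h4
          exact lt_irrefl _ h4
        rw [hm]
        gcongr
        calc (p : ℚ) = (p : ℚ) ^ 1 := (pow_one _).symm
          _ ≤ (p : ℚ) ^ m := pow_le_pow_right₀ (by exact_mod_cast hp.one_lt.le) (by omega)
      · rw [cn_le] at hPI ⊢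
        refine ⟨fun k => ?_, fun k => ?_⟩
        · by_cases hk : k = i
          · subst hk
            rw [hJi]
            exact hq3 _ (fst_mem_LT P)
          · rw [hJk k hk]
            exact hPI.1 k
        · by_cases hk : k = i
          · subst hk
            rw [hJi]
            exact hq3 _ (snd_mem_LT P)
          · rw [hJk k hk]
            exact hPI.2 k
  · rintro M ⟨hM, p, hp, hXp, hCf⟩
    exact ⟨p, hXp, hM, hp, hCf⟩

variable {K}

/-- the sublattice of index `p` -/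
theorem sub_mem_SA (hodd : Odd (dg K)) (hn : 2 ≤ dg K) {κ : Ux K → ℝ} {I : FA K} {t : ℝ} {p : ℕ}
    (hp : p.Prime) {P : Al K × Al K} (hPI : ∀ i, cn P i ≤ I i) (hPN : ND P) (hPZ : NZ κ (vc P))
    (hPt : pm (vc P) ≤ t) {x y : Al K} (hxy : LT (x, y) = LT P) :
    IN (x, y) ∧ LT (x, (p : ℤ) • y) ∈ SA κ (fun i => sp (p : K i) * I i + sp (x i))
      ((p : ℝ) ^ dg K * t) := by
  have hind : IN (x, y) := IN_congr (hPN.ind hn) hxy.symm
  refine ⟨hind, ?_⟩
  obtain ⟨g1, g2, g3, _⟩ := LT_inv hodd hn hPN hxy.symm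
  have hp0 : (p : ℚ) ≠ 0 := by exact_mod_cast hp.ne_zero
  have hdet : (1 : ℚ) * (p : ℚ) - 0 * 0 ≠ 0 := by simpa using hp0
  have he : ((x, (p : ℤ) • y) : Al K × Al K) = glq 1 0 0 p (x, y) := by
    unfold glq
    refine Prod.ext ?_ ?_
    · simp
    · show (p : ℤ) • y = (0 : ℚ) • x + (p : ℚ) • y
      rw [zero_smul, zero_add, ← Int.cast_smul_eq_zsmul ℚ]
      simp
  refine ⟨(x, (p : ℤ) • y), rfl, ?_, ?_, ?_, ?_⟩
  · rw [cn_le]
    constructor
    · intro i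
      have : sp (x i) ≤ sp (p : K i) * I i + sp (x i) := by
        rw [← sup_eq_add]; exact le_sup_right
      exact sp_le.1 this
    · intro i
      have h1 : y i ∈ I i := LT_mem hPI (hxy ▸ snd_mem_LT (x, y)) i
      have h2 : sp ((p : K i) * y i) ≤ sp (p : K i) * I i + sp (x i) := by
        rw [← sup_eq_add]
        refine le_trans ?_ le_sup_left
        rw [sp_mul]
        have := sp_le.2 h1
        gcongr
      have h3 : ((p : ℤ) • y) i = (p : K i) * y i := by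
        rw [Pi.smul_apply, zsmul_eq_mul, Int.cast_natCast]
      show ((p : ℤ) • y) i ∈ _
      rw [h3]
      exact sp_le.1 h2
  · rw [he]
    exact g1.glq hdet
  · intro j
    rw [he, cc_vc_glq hodd hdet (g1.pm_pos hn), g3]
    exact hPZ j
  · rw [he, pm_vc_glq, g2]
    have : |(((1 : ℚ) : ℝ) * ((p : ℚ) : ℝ) - ((0 : ℚ) : ℝ) * ((0 : ℚ) : ℝ))| = (p : ℝ) := by
      push_cast
      rw [one_mul, mul_zero, sub_zero, abs_of_nonneg (by positivity)]
    rw [this]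
    gcongr

variable (K)

theorem rf1 (h1 : S_CR K) (h2 : S_DIV K) (h3 : S_BAS K) (h4 : S_SUP K) : S_RF1 K := by
  intro hodd hn κ
  obtain ⟨C, hC, hCR⟩ := h1 hodd hn κ
  refine ⟨2 * (2 ^ dg K * (2 * C)), by positivity, fun I t X ht hX => ?_⟩
  have hI0 : ∀ i, Pool.Agent.Y714.KE.cf I i ≠ 0 := fun i => (I i).ne_zero
  obtain ⟨N, hN⟩ : ∃ N : ℝ, N = ((nA (Pool.Agent.Y714.KE.cf I) : ℚ) : ℝ) := ⟨_, rfl⟩
  have hN0 : 0 < N := by rw [hN]; exact_mod_cast nA_pos hI0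
  obtain ⟨G, hG⟩ : ∃ G : ℝ, G = lg (Fintype.card s) (t / N ^ 2) := ⟨_, rfl⟩
  have hG0 : 0 ≤ G := by rw [hG]; exact lg_nonneg (by positivity)
  obtain ⟨n, hndef⟩ : ∃ n : ℕ, n = dg K := ⟨_, rfl⟩
  rw [← hndef]
  have key := cover {M ∈ SA κ (Pool.Agent.Y714.KE.cf I) t | ∃ p : ℕ, p.Prime ∧ X < p ∧ ∃ m ≤ n,
      n + 3 ≤ 2 * m ∧ Rf p m (Pool.Agent.Y714.KE.cf I) M}
    ((hCR I t ht).1.subset fun M hM => hM.1)
    (fun p => {M | M ∈ SA κ (Pool.Agent.Y714.KE.cf I) t ∧ p.Prime ∧ ∃ m ≤ n, n + 3 ≤ 2 * m ∧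
      Rf p m (Pool.Agent.Y714.KE.cf I) M})
    (2 ^ n * (2 * C) * (t / N ^ 2) * G) X (by positivity) (by linarith)
    ?_ ?_
  · rw [← hN]
    refine key.trans (le_of_eq ?_)
    rw [hG]
    unfold lg
    ring
  · intro p hXp
    have hp0 : (0 : ℝ) < (p : ℝ) := by linarith
    by_cases hp : p.Prime
    swap
    · have : {M | M ∈ SA κ (Pool.Agent.Y714.KE.cf I) t ∧ p.Prime ∧ ∃ m ≤ n, n + 3 ≤ 2 * m ∧
          Rf p m (Pool.Agent.Y714.KE.cf I) M} = ∅ := by
        ext M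
        simp [hp]
      rw [this]
      refine ⟨Set.finite_empty, ?_⟩
      rw [Set.ncard_empty]
      push_cast
      positivity
    obtain ⟨d1, d2⟩ := h2 p hp I
    have hp0' : ∀ i, (p : K i) ≠ 0 := fun i => by exact_mod_cast hp.ne_zero
    have hp1 : (1 : ℝ) ≤ p := by exact_mod_cast hp.one_lt.le
    have hT : {J : FA K | (∀ i, sp (p : K i) * (I i : FI (K i)) ≤ J i ∧ J i ≤ I i) ∧
        ∃ m, n + 3 ≤ 2 * m ∧ nA J = (p : ℚ) ^ m * nA (Pool.Agent.Y714.KE.cf I)} ⊆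
        {J : FA K | ∀ i, sp (p : K i) * (I i : FI (K i)) ≤ J i ∧ J i ≤ I i} := fun J hJ => hJ.1
    have key2 := bUc {M | M ∈ SA κ (Pool.Agent.Y714.KE.cf I) t ∧ p.Prime ∧ ∃ m ≤ n,
        n + 3 ≤ 2 * m ∧ Rf p m (Pool.Agent.Y714.KE.cf I) M}
      {J : FA K | (∀ i, sp (p : K i) * (I i : FI (K i)) ≤ J i ∧ J i ≤ I i) ∧
        ∃ m, n + 3 ≤ 2 * m ∧ nA J = (p : ℚ) ^ m * nA (Pool.Agent.Y714.KE.cf I)}
      (d1.subset hT) (2 ^ n)
      (((Set.ncard_le_ncard hT d1).trans d2).trans (by rw [hndef]))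
      (fun J => {M | ∃ P : Al K × Al K, IN P ∧ M = LT P ∧
        LT (P.1, (p : ℤ) • P.2) ∈ SA κ J ((p : ℝ) ^ n * t)})
      (2 * C * (t / ((p : ℝ) ^ 2 * N ^ 2)) * G) (by positivity) ?_ ?_
    · refine ⟨key2.1, key2.2.trans (le_of_eq ?_)⟩
      push_cast
      field_simp
    · rintro J ⟨hJ1, m, hm1, hm2⟩
      have hJ0 : ∀ i, J i ≠ 0 := by
        intro i h0
        have h5 := (hJ1 i).1
        rw [h0] at h5
        have h6 : sp (p : K i) * (I i : FI (K i)) = 0 := le_antisymm h5 (zero_le _)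
        exact mul_ne_zero (sp_ne (hp0' i)) (I i).ne_zero h6
      have h5 : ((p : ℝ) ^ m) ^ 2 = (p : ℝ) ^ (n + 3) * (p : ℝ) ^ (2 * m - (n + 3)) := by
        rw [← pow_mul, ← pow_add]
        congr 1
        omega
      have h6 : (1 : ℝ) ≤ (p : ℝ) ^ (2 * m - (n + 3)) := one_le_pow₀ hp1
      have h7 : (p : ℝ) ^ (n + 3) ≤ ((p : ℝ) ^ m) ^ 2 := by
        rw [h5]
        have : (0 : ℝ) < (p : ℝ) ^ (n + 3) := by positivity
        nlinarith
      have h8 : (p : ℝ) ^ n * t / (((p : ℝ) ^ m) ^ 2 * N ^ 2) ≤ t / ((p : ℝ) ^ 3 * N ^ 2) := by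
        calc (p : ℝ) ^ n * t / (((p : ℝ) ^ m) ^ 2 * N ^ 2) ≤
            (p : ℝ) ^ n * t / ((p : ℝ) ^ (n + 3) * N ^ 2) := by gcongr
          _ = _ := by
            rw [pow_add]
            field_simp
      have h9 : t / ((p : ℝ) ^ 3 * N ^ 2) ≤ t / N ^ 2 := by
        have h10 : (1 : ℝ) ≤ (p : ℝ) ^ 3 := one_le_pow₀ hp1
        have h11 : 0 < N ^ 2 := by positivity
        gcongr
        nlinarith
      obtain ⟨c1, c2⟩ := cr_mulA hC hCR hJ0 hI0 (t := (p : ℝ) ^ n * t) (by positivity)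
        (D := (p : ℝ) ^ m) (x := t / N ^ 2) (by positivity)
        (by rw [hm2]; push_cast; exact le_rfl) (by rw [← hN]; exact h8.trans h9)
      rw [← hN, ← hG] at c2
      obtain ⟨e1, e2⟩ := bUc {M | ∃ P : Al K × Al K, IN P ∧ M = LT P ∧
          LT (P.1, (p : ℤ) • P.2) ∈ SA κ J ((p : ℝ) ^ n * t)}
        (SA κ J ((p : ℝ) ^ n * t)) c1 _ le_rfl
        (fun M₁ => {M : Submodule ℤ (Al K) | ∃ x y : Al K, IN (x, y) ∧ M = LT (x, y) ∧
          LT (x, (p : ℤ) • y) = M₁}) ((p : ℝ) + 1) (by positivity)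
        (fun M₁ _ => by
          obtain ⟨s1, s2⟩ := h4 p hp M₁
          exact ⟨s1, by exact_mod_cast s2⟩)
        (by
          rintro M ⟨P, hP1, hP2, hP3⟩
          exact ⟨_, hP3, P.1, P.2, hP1, hP2, rfl⟩)
      refine ⟨e1, e2.trans ?_⟩
      calc ((SA κ J ((p : ℝ) ^ n * t)).ncard : ℝ) * ((p : ℝ) + 1) ≤
          (C * ((p : ℝ) ^ n * t / (((p : ℝ) ^ m) ^ 2 * N ^ 2)) * G) * (2 * p) := by
            gcongr
            linarith
        _ ≤ (C * (t / ((p : ℝ) ^ 3 * N ^ 2)) * G) * (2 * p) := by gcongr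
        _ = 2 * C * (t / ((p : ℝ) ^ 2 * N ^ 2)) * G := by field_simp
    · rintro M ⟨⟨P, rfl, hPI, hPN, hPZ, hPt⟩, _, m, hm1, hm2, hRf⟩
      obtain ⟨x, y, hxy, hnm⟩ := h3 p hp m I P (hPN.ind (by omega)) hPI hRf
      refine ⟨fun i => sp (p : K i) * Pool.Agent.Y714.KE.cf I i + sp (x i),
        ⟨fun i => ⟨?_, ?_⟩, m, hm2, hnm⟩, (x, y), ?_⟩
      · show sp (p : K i) * (I i : FI (K i)) ≤
          sp (p : K i) * Pool.Agent.Y714.KE.cf I i + sp (x i)
        rw [← sup_eq_add]; exact le_sup_left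
      · show sp (p : K i) * Pool.Agent.Y714.KE.cf I i + sp (x i) ≤ (I i : FI (K i))
        rw [← sup_eq_add, sup_le_iff]
        refine ⟨mul_le_self (sp_natCast_le_one p), ?_⟩
        rw [sp_le]
        exact LT_mem hPI (hxy ▸ fst_mem_LT (x, y)) i
      · obtain ⟨i1, i2⟩ := sub_mem_SA hodd (by omega) hp hPI hPN hPZ hPt hxy
        rw [← hndef] at i2
        exact ⟨i1, hxy.symm, i2⟩
  · rintro M ⟨hM, p, hp, hXp, hRf⟩
    exact ⟨p, hXp, hM, hp, hRf⟩

theorem cf (h1 : S_CR K) (h2 : S_DIV K) : S_CF K := t_cf K h1 h2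

end Pool.Agent.Y664.KE
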